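import Pool.Agent.Run7.h945.AG.Core
import Pool.Agent.H217R3.AK.Bsg

/-!
Difference sets and the additive energy of sets without `k`-term progressions.
-/

set_option autoImplicit false

namespace Pool.Agent.Run7.h945.AG

open Finset Pool.Agent.H523R2.AP
open Pool.Agent.Results.MP_b30443_co.NotAttained (r le_r bdd exists_r one_le_r)
open scoped Pointwise

lemma energy_pw {V : Type*} [AddCommGroup V] [DecidableEq V] (M : ℕ) (A : Finset V) :
    A.addEnergy A ^ M ≤ (pw M A).addEnergy (pw M A) := by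
  set Q := ((A ×ˢ A) ×ˢ (A ×ˢ A)).filter fun x => x.1.1 + x.2.1 = x.1.2 + x.2.2 with hQ
  have h1 : A.addEnergy A ^ M = (Fintype.piFinset fun _ : Fin M => Q).card := by
    rw [Fintype.card_piFinset_const]
    rfl
  rw [h1]
  refine card_le_card_of_injOn (fun f => (((fun i => (f i).1.1), (fun i => (f i).1.2)),
    ((fun i => (f i).2.1), (fun i => (f i).2.2)))) ?_ ?_
  · intro f hf
    have hf' := Fintype.mem_piFinset.1 hf
    simp only [hQ, mem_filter, mem_product] at hf'
    rw [Finset.mem_coe, mem_filter, mem_product, mem_product, mem_product]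
    simp only [pw, Fintype.mem_piFinset]
    exact ⟨⟨⟨fun i => (hf' i).1.1.1, fun i => (hf' i).1.1.2⟩,
      ⟨fun i => (hf' i).1.2.1, fun i => (hf' i).1.2.2⟩⟩, funext fun i => (hf' i).2⟩
  · intro f _ g _ h
    simp only [Prod.mk.injEq] at h
    funext i
    refine Prod.ext (Prod.ext ?_ ?_) (Prod.ext ?_ ?_)
    · exact congrFun h.1.1 i
    · exact congrFun h.1.2 i
    · exact congrFun h.2.1 i
    · exact congrFun h.2.2 i

section Mod

variable {p : ℕ} [hp : Fact p.Prime] {k : ℕ}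
variable {V : Type*} [AddCommGroup V] [Module (ZMod p) V] [Finite V] [DecidableEq V]

omit [Module (ZMod p) V] [Finite V] in
/-- the case `n = 2` of the Plünnecke-Ruzsa inequality -/
lemma card_add_mul_card_le {A : Finset V} (hne : A.Nonempty) :
    ((A + A).card : ℝ) * A.card ≤ ((A - A).card : ℝ) ^ 2 := by
  have h := pluennecke_ruzsa_inequality_nsmul_sub hne A 2
  have h' : (((2 • A).card : ℚ≥0) : ℝ) ≤ (((((A - A).card : ℚ≥0) / A.card) ^ 2 * A.card : ℚ≥0) : ℝ) :=
    NNRat.cast_le.2 h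
  push_cast at h'
  rw [two_nsmul] at h'
  have hA : (0 : ℝ) < A.card := by exact_mod_cast hne.card_pos
  calc ((A + A).card : ℝ) * A.card ≤ (((A - A).card : ℝ) / A.card) ^ 2 * A.card * A.card :=
        mul_le_mul_of_nonneg_right h' hA.le
    _ = ((A - A).card : ℝ) ^ 2 := by field_simp

/-- **The bound by the number of differences.** -/
theorem card_le_diff (hk : 3 ≤ k) (hp3 : 3 ≤ p) {t : ℝ} (ht : 0 ≤ t)
    (H : ∀ m : ℕ, (r k p m : ℝ) ≤ ((p : ℝ) ^ t) ^ m) {A : Finset V} (h : APFree k A) :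
    (A.card : ℝ) ^ (1 + t) ≤ ((A - A).card : ℝ) ^ (2 * t) := by
  rcases A.eq_empty_or_nonempty with rfl | hne
  · rw [card_empty, Nat.cast_zero, Real.zero_rpow (by linarith)]
    positivity
  have hA : (0 : ℝ) < A.card := by exact_mod_cast hne.card_pos
  have h1 := card_le_add hk hp3 ht H h
  have h2 := card_add_mul_card_le hne
  calc (A.card : ℝ) ^ (1 + t) = A.card * (A.card : ℝ) ^ t := by
        rw [Real.rpow_add hA, Real.rpow_one]
    _ ≤ ((A + A).card : ℝ) ^ t * (A.card : ℝ) ^ t := mul_le_mul_of_nonneg_right h1 (by positivity)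
    _ = (((A + A).card : ℝ) * A.card) ^ t := (Real.mul_rpow (by positivity) (by positivity)).symm
    _ ≤ (((A - A).card : ℝ) ^ 2) ^ t := Real.rpow_le_rpow (by positivity) h2 ht
    _ = ((A - A).card : ℝ) ^ (2 * t) := by
        rw [Real.rpow_mul (by positivity)]
        congr 1
        norm_cast

/-- the bound for the energy, up to a constant factor -/
lemma energy_const (hk : 3 ≤ k) (hp3 : 3 ≤ p) {t : ℝ} (ht : 0 ≤ t) (ht1 : t ≤ 1)
    (H : ∀ m : ℕ, (r k p m : ℝ) ≤ ((p : ℝ) ^ t) ^ m) {A : Finset V} (h : APFree k A)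
    (hne : A.Nonempty) {K : ℝ} (hK : 1 ≤ K) (hE : (A.card : ℝ) ^ 3 ≤ K * (A.addEnergy A : ℕ)) :
    (A.card : ℝ) ^ (1 - t) ≤ 2 ^ 47 * K ^ 20 := by
  have hK0 : 0 < K := by linarith
  obtain ⟨B, hB, hBne, h1, h2⟩ := Pool.Agent.H217R3.AK.bsg A hne K hK0 hE
  have hB0 : (0 : ℝ) < B.card := by exact_mod_cast hBne.card_pos
  have h3 := card_le_diff hk hp3 ht H (apf_mono h hB)
  have hX : (1 : ℝ) ≤ 2 ^ 22 * K ^ 10 := by
    have := one_le_pow₀ (n := 10) hK
    nlinarith
  have h4 : (B.card : ℝ) ^ (1 - t) ≤ (2 ^ 22 * K ^ 10) ^ (2 * t) := by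
    have h5 : (B.card : ℝ) ^ (1 - t) * (B.card : ℝ) ^ (2 * t) ≤
        (2 ^ 22 * K ^ 10) ^ (2 * t) * (B.card : ℝ) ^ (2 * t) := by
      calc _ = (B.card : ℝ) ^ (1 + t) := by rw [← Real.rpow_add hB0]; congr 1; ring
        _ ≤ ((B - B).card : ℝ) ^ (2 * t) := h3
        _ ≤ (2 ^ 22 * K ^ 10 * B.card) ^ (2 * t) :=
            Real.rpow_le_rpow (by positivity) h2 (by linarith)
        _ = _ := Real.mul_rpow (by positivity) (by positivity)
    exact le_of_mul_le_mul_right h5 (by positivity)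
  have h6 : (A.card : ℝ) ^ (1 - t) ≤ (8 * K) ^ (1 - t) * (2 ^ 22 * K ^ 10) ^ (2 * t) := by
    calc (A.card : ℝ) ^ (1 - t) ≤ (8 * K * B.card) ^ (1 - t) :=
          Real.rpow_le_rpow (by positivity) h1 (by linarith)
      _ = (8 * K) ^ (1 - t) * (B.card : ℝ) ^ (1 - t) :=
          Real.mul_rpow (by positivity) (by positivity)
      _ ≤ _ := mul_le_mul_of_nonneg_left h4 (by positivity)
  -- compare with the exponents at `1`
  have h8 : (1 : ℝ) ≤ 8 * K := by linarith
  have h9 : (8 * K) ^ (1 - t) ≤ (8 * K) * K ^ (-t) := by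
    rw [Real.mul_rpow (by norm_num) hK0.le]
    have e1 : (8 : ℝ) ^ (1 - t) ≤ 8 := by
      calc (8 : ℝ) ^ (1 - t) ≤ 8 ^ (1 : ℝ) := Real.rpow_le_rpow_of_exponent_le (by norm_num) (by linarith)
        _ = 8 := Real.rpow_one 8
    have e2 : K ^ (1 - t) = K * K ^ (-t) := by
      rw [sub_eq_add_neg, Real.rpow_add hK0, Real.rpow_one]
    rw [e2]
    calc (8 : ℝ) ^ (1 - t) * (K * K ^ (-t)) ≤ 8 * (K * K ^ (-t)) :=
          mul_le_mul_of_nonneg_right e1 (by positivity)
      _ = _ := by ring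
  have h10 : (2 ^ 22 * K ^ 10) ^ (2 * t) ≤ 2 ^ 44 * K ^ (20 * t) := by
    rw [Real.mul_rpow (by positivity) (by positivity)]
    have e1 : ((2 : ℝ) ^ 22) ^ (2 * t) ≤ 2 ^ 44 := by
      calc ((2 : ℝ) ^ 22) ^ (2 * t) ≤ ((2 : ℝ) ^ 22) ^ (2 : ℝ) :=
            Real.rpow_le_rpow_of_exponent_le (by norm_num) (by linarith)
        _ = 2 ^ 44 := by
            rw [show (2 : ℝ) = ((2 : ℕ) : ℝ) by norm_num, Real.rpow_natCast]
            norm_num
    have e2 : (K ^ 10) ^ (2 * t) = K ^ (20 * t) := by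
      rw [← Real.rpow_natCast, ← Real.rpow_mul hK0.le]
      congr 1
      push_cast
      ring
    rw [e2]
    exact mul_le_mul_of_nonneg_right e1 (by positivity)
  calc (A.card : ℝ) ^ (1 - t) ≤ (8 * K) ^ (1 - t) * (2 ^ 22 * K ^ 10) ^ (2 * t) := h6
    _ ≤ ((8 * K) * K ^ (-t)) * (2 ^ 44 * K ^ (20 * t)) :=
        mul_le_mul h9 h10 (by positivity) (by positivity)
    _ = 2 ^ 47 * (K ^ (1 : ℝ) * K ^ (-t) * K ^ (20 * t)) := by
        rw [Real.rpow_one]
        ring
    _ = 2 ^ 47 * K ^ (1 + 19 * t) := by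
        rw [← Real.rpow_add hK0, ← Real.rpow_add hK0]
        congr 2
        ring
    _ ≤ 2 ^ 47 * K ^ (20 : ℝ) := by
        have := Real.rpow_le_rpow_of_exponent_le hK (show 1 + 19 * t ≤ 20 by linarith)
        linarith
    _ = 2 ^ 47 * K ^ 20 := by norm_cast

/-- **The bound for the energy.** -/
theorem energy_le (hk : 3 ≤ k) (hp3 : 3 ≤ p) {t : ℝ} (ht : 0 ≤ t) (ht1 : t ≤ 1)
    (H : ∀ m : ℕ, (r k p m : ℝ) ≤ ((p : ℝ) ^ t) ^ m) {A : Finset V} (h : APFree k A) :
    ((A.addEnergy A : ℕ) : ℝ) ≤ (A.card : ℝ) ^ (3 - (1 - t) / 20) := by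
  rcases A.eq_empty_or_nonempty with rfl | hne
  · rw [addEnergy_empty_left, Nat.cast_zero]
    positivity
  have hA : (0 : ℝ) < A.card := by exact_mod_cast hne.card_pos
  have hE : (0 : ℝ) < (A.addEnergy A : ℕ) := by exact_mod_cast addEnergy_pos hne hne
  have hE3 : ((A.addEnergy A : ℕ) : ℝ) ≤ (A.card : ℝ) ^ 3 := by
    have h1 : A.addEnergy A ≤ A.card ^ 3 := by
      have h2 : A.addEnergy A ≤ ((A ×ˢ A) ×ˢ A).card := by
        refine card_le_card_of_injOn (fun x => (x.1, x.2.1)) ?_ ?_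
        · intro x hx
          rw [Finset.mem_coe, mem_filter, mem_product, mem_product, mem_product] at hx
          exact mem_coe.2 (mem_product.2 ⟨mem_product.2 hx.1.1, hx.1.2.1⟩)
        · intro x hx y hy hxy
          rw [Finset.mem_coe, mem_filter] at hx hy
          have e1 : x.1 = y.1 := (Prod.mk.inj hxy).1
          have e2 : x.2.1 = y.2.1 := (Prod.mk.inj hxy).2
          have e3 : x.2.2 = y.2.2 := by
            have h3 := hx.2
            have h4 := hy.2
            rw [e1, e2, h4] at h3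
            exact (add_left_cancel h3).symm
          exact Prod.ext e1 (Prod.ext e2 e3)
      refine h2.trans (le_of_eq ?_)
      rw [card_product, card_product]
      ring
    exact_mod_cast h1
  set K : ℝ := (A.card : ℝ) ^ 3 / (A.addEnergy A : ℕ) with hKdef
  have hK1 : 1 ≤ K := by rw [hKdef, one_le_div hE]; exact hE3
  have hK0 : 0 < K := by linarith
  have main : (A.card : ℝ) ^ (1 - t) ≤ K ^ 20 := by
    refine SG.le_of_pow_le (C := 2 ^ 47) (by positivity) (by positivity) ?_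
    intro N _
    have h1 := energy_const (p := p) hk hp3 ht ht1 H (apf_pw h N)
      (by rw [← card_pos, card_pw]; exact Nat.pow_pos hne.card_pos) (K := K ^ N)
      (one_le_pow₀ hK1) (by
        have e1 : (((A.addEnergy A : ℕ) : ℝ)) ^ N ≤ (((pw N A).addEnergy (pw N A) : ℕ) : ℝ) := by
          exact_mod_cast energy_pw N A
        calc (((pw N A).card : ℕ) : ℝ) ^ 3 = ((A.card : ℝ) ^ 3) ^ N := by
              rw [card_pw]
              push_cast
              ring
          _ = K ^ N * ((A.addEnergy A : ℕ) : ℝ) ^ N := by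
              rw [← mul_pow]
              congr 1
              rw [hKdef]
              field_simp
          _ ≤ _ := mul_le_mul_of_nonneg_left e1 (by positivity))
    have e1 : ((((pw N A).card : ℕ) : ℝ)) ^ (1 - t) = ((A.card : ℝ) ^ (1 - t)) ^ N := by
      rw [card_pw]
      push_cast
      rw [← Real.rpow_natCast, ← Real.rpow_natCast, ← Real.rpow_mul hA.le, ← Real.rpow_mul hA.le,
        mul_comm]
    rw [e1] at h1
    refine h1.trans (le_of_eq ?_)
    rw [← pow_mul, ← pow_mul, mul_comm N]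
  have h2 : (A.card : ℝ) ^ ((1 - t) / 20) ≤ K := by
    have h3 := Real.rpow_le_rpow (by positivity) main (show (0 : ℝ) ≤ 1 / 20 by norm_num)
    rw [← Real.rpow_mul hA.le, ← Real.rpow_natCast, ← Real.rpow_mul hK0.le] at h3
    have e1 : (1 - t) * (1 / 20) = (1 - t) / 20 := by ring
    have e2 : ((20 : ℕ) : ℝ) * (1 / 20) = 1 := by norm_num
    rwa [e1, e2, Real.rpow_one] at h3
  rw [Real.rpow_sub hA]
  rw [le_div_iff₀ (by positivity)]
  have e3 : (A.card : ℝ) ^ (3 : ℝ) = (A.card : ℝ) ^ 3 := by norm_cast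
  rw [e3]
  calc ((A.addEnergy A : ℕ) : ℝ) * (A.card : ℝ) ^ ((1 - t) / 20)
      ≤ ((A.addEnergy A : ℕ) : ℝ) * K := mul_le_mul_of_nonneg_left h2 hE.le
    _ = (A.card : ℝ) ^ 3 := by
        rw [hKdef]
        field_simp

end Mod

end Pool.Agent.Run7.h945.AG
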