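import Pool.Agent.Run7.h945.SG.Sample
import Pool.Agent.Results.MP_b30443_co.NotAttained

/-!
Sets without `k`-term progressions are moved to a space whose size is about the number of the
elements `a + b - 2 c`.
-/

set_option autoImplicit false

namespace Pool.Agent.Run7.h945.AG

open Finset Pool.Agent.H523R2.AP
open Pool.Agent.Results.MP_b30443_co.NotAttained (r le_r bdd exists_r one_le_r)
open scoped Pointwise

section Basic

variable {V : Type*} [AddCommGroup V] {k : ℕ}

lemma apf_iff (A : Finset V) :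
    APFree k A ↔ ∀ a : ℕ → V, (∀ j < k, a j ∈ A) →
      (∀ j, j + 2 < k → a j + a (j + 2) = a (j + 1) + a (j + 1)) → a 0 = a 1 := by
  constructor
  · intro h a ha hs
    by_contra hne
    have key : ∀ j, (j < k → a j = a 0 + j • (a 1 - a 0)) ∧
        (j + 1 < k → a (j + 1) = a 0 + (j + 1) • (a 1 - a 0)) := by
      intro j
      induction j with
      | zero => exact ⟨fun _ => by simp, fun _ => by simp⟩
      | succ j ih =>
        refine ⟨ih.2, fun hj => ?_⟩
        have h1 := hs j hj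
        rw [ih.1 (by omega), ih.2 (by omega)] at h1
        have h2 : a (j + 1 + 1) = a 0 + (j + 1) • (a 1 - a 0) + (a 0 + (j + 1) • (a 1 - a 0)) -
            (a 0 + j • (a 1 - a 0)) := by
          rw [← h1]
          abel
        rw [h2, add_smul (j + 1) 1, add_smul j 1]
        abel
    refine h (a 0) (a 1 - a 0) (sub_ne_zero.2 fun h' => hne h'.symm) fun j hj => ?_
    rw [← (key j).1 hj]
    exact ha j hj
  · intro h x y hy h'
    have h1 := h (fun j => x + j • y) h' (fun j _ => by
      simp only [add_smul, one_smul, two_smul]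
      abel)
    apply hy
    simpa using h1

variable [DecidableEq V]

/-- the doubles of the elements of `A` -/
def dbl (A : Finset V) : Finset V := A.image fun x => x + x

/-- the elements `a + b - 2 c` with `a`, `b`, `c` in `A` -/
def D (A : Finset V) : Finset V := A + A - dbl A

lemma mem_D {A : Finset V} {a b c : V} (ha : a ∈ A) (hb : b ∈ A) (hc : c ∈ A) :
    a + b - (c + c) ∈ D A :=
  sub_mem_sub (add_mem_add ha hb) (mem_image_of_mem _ hc)

lemma D_subset (A : Finset V) : D A ⊆ A + A - (A + A) := by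
  refine sub_subset_sub_left ?_
  intro x hx
  obtain ⟨a, ha, rfl⟩ := mem_image.1 hx
  exact add_mem_add ha ha

lemma zero_mem_D {A : Finset V} (h : A.Nonempty) : (0 : V) ∈ D A := by
  obtain ⟨a, ha⟩ := h
  have := mem_D ha ha ha
  rwa [sub_self] at this

lemma card_le_D (A : Finset V) : A.card ≤ (D A).card := by
  rcases A.eq_empty_or_nonempty with rfl | ⟨c, hc⟩
  · simp
  · refine card_le_card_of_injOn (fun a => a + c - (c + c)) (fun a ha => mem_D ha hc hc) ?_
    intro a _ b _ h
    have h' : a + c - (c + c) = b + c - (c + c) := h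
    exact add_right_cancel (sub_left_inj.1 h')

/-- the `M`-th power of a set -/
def pw (M : ℕ) (A : Finset V) : Finset (Fin M → V) := Fintype.piFinset fun _ => A

lemma card_pw (M : ℕ) (A : Finset V) : (pw M A).card = A.card ^ M := by
  rw [pw, Fintype.card_piFinset_const]

lemma pw_add (M : ℕ) (A B : Finset V) : pw M (A + B) = pw M A + pw M B :=
  Fintype.piFinset_add _ _

lemma pw_sub (M : ℕ) (A B : Finset V) : pw M (A - B) = pw M A - pw M B :=
  Fintype.piFinset_sub _ _

lemma pw_dbl (M : ℕ) (A : Finset V) : pw M (dbl A) = dbl (pw M A) := by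
  ext f
  rw [pw, Fintype.mem_piFinset, dbl, dbl, mem_image]
  constructor
  · intro h
    choose g hg hg' using fun i => mem_image.1 (h i)
    exact ⟨g, Fintype.mem_piFinset.2 hg, funext hg'⟩
  · rintro ⟨g, hg, rfl⟩ i
    exact mem_image_of_mem (fun x => x + x) (Fintype.mem_piFinset.1 hg i)

lemma D_pw (M : ℕ) (A : Finset V) : D (pw M A) = pw M (D A) := by
  rw [D, D, pw_sub, pw_add, pw_dbl]

lemma apf_pw {A : Finset V} (h : APFree k A) (M : ℕ) : APFree k (pw M A) := by
  intro x y hy h'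
  obtain ⟨i, hi⟩ := Function.ne_iff.1 hy
  refine h (x i) (y i) hi fun j hj => ?_
  have := Fintype.mem_piFinset.1 (h' j hj) i
  simpa using this

lemma apf_mono {A B : Finset V} (h : APFree k A) (hB : B ⊆ A) : APFree k B :=
  fun x y hy h' => h x y hy fun j hj => hB (h' j hj)

end Basic

section Mod

variable {p : ℕ} [hp : Fact p.Prime] {k : ℕ}
variable {V : Type*} [AddCommGroup V] [Module (ZMod p) V] [Finite V] [DecidableEq V]

lemma add_self_ne_zero (hp3 : 3 ≤ p) {v : V} (h : v ≠ 0) : v + v ≠ 0 := by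
  intro h'
  have h1 : (2 : ZMod p) • v = 0 := by rw [two_smul, h']
  rcases smul_eq_zero.1 h1 with h2 | h2
  · have h3 : ((2 : ℕ) : ZMod p) = 0 := by exact_mod_cast h2
    rw [ZMod.natCast_eq_zero_iff] at h3
    have := Nat.le_of_dvd (by norm_num) h3
    omega
  · exact h h2

/-- the elements `b + c - 2 a` -/
def mid (A : Finset V) (a : V) : Finset V := ((A + A).image fun s => s - (a + a)).erase 0

/-- the elements `a + b - 2 c` -/
def out (A : Finset V) (a : V) : Finset V := ((A - dbl A).image fun s => s + a).erase 0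

omit [Module (ZMod p) V] [Finite V] in
lemma card_mid (A : Finset V) (a : V) : (mid A a).card ≤ (A + A).card :=
  (card_erase_le).trans card_image_le

omit [Module (ZMod p) V] [Finite V] in
lemma card_out (A : Finset V) (a : V) : (out A a).card ≤ (A - dbl A).card :=
  (card_erase_le).trans card_image_le

/-- the image of the good elements -/
lemma image_apf {A J : Finset V} (h : APFree k A) (hJ : J ⊆ A) {m : ℕ}
    (φ : V →ₗ[ZMod p] (Fin m → ZMod p))
    (inj : ∀ a ∈ J, ∀ b ∈ J, φ a = φ b → a = b)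
    (good : ∀ a ∈ J, ∀ b ∈ J, ∀ c ∈ J, φ a + φ c = φ b + φ b → a + c = b + b) (hk : 3 ≤ k) :
    J.card ≤ r k p m := by
  classical
  rcases J.eq_empty_or_nonempty with rfl | hne
  · simp
  apply le_r
  refine ⟨J.image φ, ?_, card_image_of_injOn fun a ha b hb hab => inj a ha b hb hab⟩
  rw [apf_iff]
  intro b hb hs
  have hch : ∀ j, ∃ a, a ∈ J ∧ (j < k → φ a = b j) := by
    intro j
    by_cases hj : j < k
    · obtain ⟨a, ha, hab⟩ := mem_image.1 (hb j hj)
      exact ⟨a, ha, fun _ => hab⟩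
    · obtain ⟨a, ha⟩ := hne
      exact ⟨a, ha, fun h => absurd h hj⟩
  choose a ha hab using hch
  have h1 := (apf_iff A).1 h a (fun j _ => hJ (ha j)) (fun j hj => by
    apply good _ (ha _) _ (ha _) _ (ha _)
    rw [hab j (by omega), hab (j + 2) hj, hab (j + 1) (by omega), hs j hj])
  rw [← hab 0 (by omega), ← hab 1 (by omega), h1]

/-- **The transfer by the number of sums.** -/
theorem transfer_add (hk : 3 ≤ k) (hp3 : 3 ≤ p) {A : Finset V} (h : APFree k A) {m : ℕ}
    (hm : 2 * (A + A).card ≤ p ^ m) : A.card ≤ 2 * r k p m := by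
  obtain ⟨φ, J, hJ, h1, h2⟩ := SG.sample_half (p := p) A (mid A) (fun a _ => notMem_erase _ _)
    (A + A).card (fun a _ => card_mid A a) hm
  have good : ∀ a ∈ J, ∀ b ∈ J, ∀ c ∈ J, φ a + φ c = φ b + φ b → a + c = b + b := by
    intro a ha b hb c hc hs
    by_contra hne
    refine h2 b hb (a + c - (b + b)) ?_ ?_
    · exact mem_erase.2 ⟨sub_ne_zero.2 hne, mem_image.2 ⟨a + c, add_mem_add (hJ ha) (hJ hc), rfl⟩⟩
    · rw [map_sub, map_add, map_add, hs, sub_self]
  have inj : ∀ a ∈ J, ∀ b ∈ J, φ a = φ b → a = b := by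
    intro a ha b hb hab
    have h3 := good a ha b hb a ha (by rw [hab])
    by_contra hne
    refine add_self_ne_zero (p := p) hp3 (sub_ne_zero.2 hne) ?_
    rw [show a - b + (a - b) = a + a - (b + b) by abel, h3, sub_self]
  exact h1.trans (Nat.mul_le_mul_left _ (image_apf h hJ φ inj good hk))

/-- **The transfer by the number of the elements `b - 2 c`.** -/
theorem transfer_sub (hk : 3 ≤ k) (hp3 : 3 ≤ p) {A : Finset V} (h : APFree k A) {m : ℕ}
    (hm : 2 * (A - dbl A).card ≤ p ^ m) : A.card ≤ 2 * r k p m := by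
  obtain ⟨φ, J, hJ, h1, h2⟩ := SG.sample_half (p := p) A (out A) (fun a _ => notMem_erase _ _)
    (A - dbl A).card (fun a _ => card_out A a) hm
  have good : ∀ a ∈ J, ∀ b ∈ J, ∀ c ∈ J, φ a + φ c = φ b + φ b → a + c = b + b := by
    intro a ha b hb c hc hs
    by_contra hne
    refine h2 a ha (c - (b + b) + a) ?_ ?_
    · rw [out, mem_erase]
      refine ⟨?_, mem_image.2 ⟨c - (b + b), sub_mem_sub (hJ hc) (mem_image_of_mem _ (hJ hb)), rfl⟩⟩
      intro h0
      apply hne
      rw [← sub_eq_zero, ← h0]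
      abel
    · rw [map_add, map_sub, map_add, sub_add_eq_add_sub, add_comm (φ c), hs, sub_self]
  have inj : ∀ a ∈ J, ∀ b ∈ J, φ a = φ b → a = b := by
    intro a ha b hb hab
    have h3 := good a ha b hb a ha (by rw [hab])
    by_contra hne
    refine add_self_ne_zero (p := p) hp3 (sub_ne_zero.2 hne) ?_
    rw [show a - b + (a - b) = a + a - (b + b) by abel, h3, sub_self]
  exact h1.trans (Nat.mul_le_mul_left _ (image_apf h hJ φ inj good hk))

omit [Finite V] [DecidableEq V] [Module (ZMod p) V] [AddCommGroup V] in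
/-- the computation with powers -/
lemma power_trick {t : ℝ} (ht : 0 ≤ t) (H : ∀ m : ℕ, (r k p m : ℝ) ≤ ((p : ℝ) ^ t) ^ m)
    {a d : ℕ} (hd : 0 < d) (h : ∀ N m : ℕ, 2 * d ^ N ≤ p ^ m → a ^ N ≤ 2 * r k p m) :
    (a : ℝ) ≤ (d : ℝ) ^ t := by
  have hD : (0 : ℝ) < d := by exact_mod_cast hd
  have hp0 : (0 : ℝ) < p := by exact_mod_cast hp.out.pos
  refine SG.le_of_pow_le (C := 2 * (2 * p : ℝ) ^ t) (by positivity) (by positivity) ?_
  intro N _
  have hdN : 0 < d ^ N := Nat.pow_pos hd
  obtain ⟨m, hm1, hm2⟩ := SG.exists_dim p hp.out.one_lt (2 * d ^ N) (by omega)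
  have h1 := h N m hm1
  have hm2' : (p : ℝ) ^ m ≤ (2 * p) * (d : ℝ) ^ N := by
    have : ((p ^ m : ℕ) : ℝ) ≤ ((p * (2 * d ^ N) : ℕ) : ℝ) := by exact_mod_cast hm2
    push_cast at this
    linarith
  calc ((a : ℝ)) ^ N ≤ 2 * (r k p m : ℝ) := by exact_mod_cast h1
    _ ≤ 2 * ((p : ℝ) ^ t) ^ m := by linarith [H m]
    _ = 2 * ((p : ℝ) ^ m) ^ t := by
        rw [← Real.rpow_natCast, ← Real.rpow_natCast, ← Real.rpow_mul hp0.le,
          ← Real.rpow_mul hp0.le, mul_comm t]
    _ ≤ 2 * ((2 * p) * (d : ℝ) ^ N) ^ t := by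
        have := Real.rpow_le_rpow (by positivity) hm2' ht
        linarith
    _ = 2 * (2 * p : ℝ) ^ t * ((d : ℝ) ^ t) ^ N := by
        rw [Real.mul_rpow (by positivity) (by positivity), mul_assoc]
        congr 2
        rw [← Real.rpow_natCast, ← Real.rpow_natCast, ← Real.rpow_mul hD.le,
          ← Real.rpow_mul hD.le, mul_comm]

/-- **The bound by the number of sums.** -/
theorem card_le_add (hk : 3 ≤ k) (hp3 : 3 ≤ p) {t : ℝ} (ht : 0 ≤ t)
    (H : ∀ m : ℕ, (r k p m : ℝ) ≤ ((p : ℝ) ^ t) ^ m) {A : Finset V} (h : APFree k A) :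
    (A.card : ℝ) ≤ ((A + A).card : ℝ) ^ t := by
  rcases A.eq_empty_or_nonempty with rfl | hne
  · rw [card_empty, Nat.cast_zero]
    positivity
  refine power_trick ht H (card_pos.2 (hne.add hne)) fun N m hm => ?_
  rw [← card_pw]
  apply transfer_add hk hp3 (apf_pw h N)
  rwa [← pw_add, card_pw]

/-- **The bound by the number of the elements `b - 2 c`.** -/
theorem card_le_sub (hk : 3 ≤ k) (hp3 : 3 ≤ p) {t : ℝ} (ht : 0 ≤ t)
    (H : ∀ m : ℕ, (r k p m : ℝ) ≤ ((p : ℝ) ^ t) ^ m) {A : Finset V} (h : APFree k A) :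
    (A.card : ℝ) ≤ ((A - dbl A).card : ℝ) ^ t := by
  rcases A.eq_empty_or_nonempty with rfl | hne
  · rw [card_empty, Nat.cast_zero]
    positivity
  refine power_trick ht H (card_pos.2 (hne.sub (hne.image _))) fun N m hm => ?_
  rw [← card_pw]
  apply transfer_sub hk hp3 (apf_pw h N)
  rwa [← pw_dbl, ← pw_sub, card_pw]

end Mod

end Pool.Agent.Run7.h945.AG
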